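import Pool.Agent.Y413.PM.Stm

set_option autoImplicit false

open Finset

namespace Y448.PM

open Y413.PM

variable {V : Type} [Fintype V] [DecidableEq V]

theorem mem_X {r : ℕ} {W : Finset V} {f : V → Fin r} {l : Fin r} {v : V} :
    v ∈ X W f l ↔ v ∈ W ∧ f v = l := by
  simp [X]

theorem mem_sdX {r : ℕ} {W : Finset V} {f : V → Fin r} {l : Fin r} {v : V} :
    v ∈ W \ X W f l ↔ v ∈ W ∧ f v ≠ l := by
  simp only [Finset.mem_sdiff, mem_X]
  tauto

open Classical in
theorem edge_id {r : ℕ} (W : Finset V) (f : V → Fin r) (e : Sym2 V) :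
    (∑ l, (if hit (X W f l) e ∧ hit (W \ X W f l) e then 1 else 0)) +
      2 * (if hit W e then 1 else 0) = 2 * ∑ l, (if hit (X W f l) e then 1 else 0) := by
  induction e using Sym2.ind with
  | _ a b =>
    simp only [hit_mk, mem_X, mem_sdX]
    by_cases ha : a ∈ W
    · by_cases hb : b ∈ W
      · by_cases hab : f a = f b
        · have h1 : ∀ l : Fin r, (if ((a ∈ W ∧ f a = l) ∨ (b ∈ W ∧ f b = l)) ∧
              ((a ∈ W ∧ f a ≠ l) ∨ (b ∈ W ∧ f b ≠ l)) then 1 else 0) = 0 := by
            intro l
            rw [if_neg]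
            rw [hab]; tauto
          have h2 : ∀ l : Fin r, (if ((a ∈ W ∧ f a = l) ∨ (b ∈ W ∧ f b = l)) then 1 else 0) =
              (if f a = l then 1 else 0) := by
            intro l
            congr 1
            rw [hab]; simp [ha, hb]
          simp only [h1, h2]
          simp [ha]
        · have h1 : ∀ l : Fin r, (if ((a ∈ W ∧ f a = l) ∨ (b ∈ W ∧ f b = l)) ∧
              ((a ∈ W ∧ f a ≠ l) ∨ (b ∈ W ∧ f b ≠ l)) then 1 else 0) =
              (if f a = l then 1 else 0) + (if f b = l then 1 else 0) := by
            intro l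
            by_cases h : f a = l
            · have h' : f b ≠ l := fun h' => hab (h.trans h'.symm)
              simp [ha, hb, h, h']
            · by_cases h' : f b = l
              · simp [ha, hb, h, h']
              · simp [h, h']
          have h2 : ∀ l : Fin r, (if ((a ∈ W ∧ f a = l) ∨ (b ∈ W ∧ f b = l)) then 1 else 0) =
              (if f a = l then 1 else 0) + (if f b = l then 1 else 0) := by
            intro l
            by_cases h : f a = l
            · have h' : f b ≠ l := fun h' => hab (h.trans h'.symm)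
              simp [ha, h, h']
            · by_cases h' : f b = l
              · simp [hb, h, h']
              · simp [h, h']
          simp only [h1, h2, Finset.sum_add_distrib]
          simp [ha]
      · have h1 : ∀ l : Fin r, (if ((a ∈ W ∧ f a = l) ∨ (b ∈ W ∧ f b = l)) ∧
              ((a ∈ W ∧ f a ≠ l) ∨ (b ∈ W ∧ f b ≠ l)) then 1 else 0) = 0 := by
          intro l
          rw [if_neg]
          tauto
        simp only [h1]
        simp [ha, hb]
    · by_cases hb : b ∈ W
      · have h1 : ∀ l : Fin r, (if ((a ∈ W ∧ f a = l) ∨ (b ∈ W ∧ f b = l)) ∧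
              ((a ∈ W ∧ f a ≠ l) ∨ (b ∈ W ∧ f b ≠ l)) then 1 else 0) = 0 := by
          intro l
          rw [if_neg]
          tauto
        simp only [h1]
        simp [ha, hb]
      · simp [ha, hb]

theorem t_ID : Y413.PM.S_ID := by
  classical
  intro V _ _ E W r f
  have h1 : ∀ l, cr E (X W f l) (W \ X W f l) =
      ∑ e ∈ E, (if hit (X W f l) e ∧ hit (W \ X W f l) e then 1 else 0) := by
    intro l
    unfold cr
    rw [Finset.card_filter]
  have h2 : ∀ l, M E (X W f l) = ∑ e ∈ E, (if hit (X W f l) e then 1 else 0) := by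
    intro l
    unfold M
    rw [Finset.card_filter]
  have h3 : M E W = ∑ e ∈ E, (if hit W e then 1 else 0) := by
    unfold M
    rw [Finset.card_filter]
  simp only [h1, h2, h3]
  rw [Finset.sum_comm, Finset.mul_sum, ← Finset.sum_add_distrib, Finset.sum_comm, Finset.mul_sum]
  exact Finset.sum_congr rfl fun e _ => edge_id W f e

end Y448.PM
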